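import Pool.Agent.E8helper59.TS.Stm2
import Pool.Agent.E8helper51.TS.Main

/-!
TS16: the density bound from the count, for bodies between an affine image of a cylinder and its
smallest circumscribed parallelotope.
-/

set_option autoImplicit false
open MeasureTheory Set Filter Topology
open scoped Pointwise ENNReal

namespace Pool.Agent.E8helper47.TS

open Pool.Agent.E8helper59.TS Pool.Agent.E8helper51.TS

lemma lim_aux2 (m : ℕ) (A C : ℝ) (hA : 0 < A) :
    Tendsto (fun R : ℝ => ((2 * R + C) ^ (m + 2) + C * (R + 1) ^ m) / (A * (2 * R) ^ (m + 2)))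
      atTop (𝓝 (1 / A)) := by
  have h1 : Tendsto (fun R : ℝ => (2 * R)⁻¹) atTop (𝓝 0) :=
    tendsto_inv_atTop_zero.comp (tendsto_id.const_mul_atTop (by norm_num : (0 : ℝ) < 2))
  have h2 : Tendsto (fun R : ℝ => (1 + C * (2 * R)⁻¹) ^ (m + 2) / A +
      C * (1 / 2 + (2 * R)⁻¹) ^ m * ((2 * R)⁻¹) ^ 2 / A) atTop
      (𝓝 ((1 + C * 0) ^ (m + 2) / A + C * (1 / 2 + 0) ^ m * 0 ^ 2 / A)) :=
    (((h1.const_mul C).const_add 1).pow (m + 2) |>.div_const A).add
      (((((h1.const_add (1 / 2)).pow m).const_mul C).mul (h1.pow 2)).div_const A)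
  have e : (1 + C * 0) ^ (m + 2) / A + C * (1 / 2 + 0) ^ m * 0 ^ 2 / A = 1 / A := by
    simp
  rw [e] at h2
  refine h2.congr' ?_
  filter_upwards [eventually_gt_atTop (0 : ℝ)] with R hR
  have e1 : (1 + C * (2 * R)⁻¹) = (2 * R + C) / (2 * R) := by field_simp
  have e2 : (1 / 2 + (2 * R)⁻¹) = (R + 1) / (2 * R) := by field_simp
  rw [e1, e2, div_pow, div_pow, pow_add (2 * R) m 2]
  field_simp

theorem t_MAIN2 (h1 : S_CNT3) (h2 : S_CAP2) : S_MAIN2 := by
  intro m D v L K P₀ hDc hDv hDi hKc hKv hsub hKP hP hmin T hT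
  obtain ⟨hA, hAt, -⟩ := h2 m D v L P₀ hDc hDv hDi hP hmin
  obtain ⟨C, hC, hcnt⟩ := h1 m D v L K P₀ hDc hDv hDi hKc hsub hP hmin
  obtain ⟨A, hAdef⟩ : ∃ A : ℝ, A = (volume P₀).toReal := ⟨_, rfl⟩
  rw [← hAdef] at hA hcnt
  have hvA : volume P₀ = ENNReal.ofReal A := by rw [hAdef, ENNReal.ofReal_toReal hAt]
  have hfin : IsFiniteMeasureOnCompacts (volume : Measure (E m)) := by
    rw [Measure.volume_eq_prod, Measure.volume_eq_prod]
    infer_instance
  have hKt : volume K ≠ ⊤ := hKc.measure_lt_top.ne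
  have hbound : ∀ R : ℝ, 0 < R →
      (∑' t : {t : E m // t ∈ T ∧ (fun x => t + x) '' K ⊆ Metric.closedBall 0 R},
          volume ((fun x => (t : E m) + x) '' K)) /
            volume (Metric.closedBall (0 : E m) R) ≤
        ENNReal.ofReal (((2 * R + C) ^ (m + 2) + C * (R + 1) ^ m) / (A * (2 * R) ^ (m + 2))) *
          volume K := by
    intro R hR
    rw [vol_ball m R hR]
    simp only [vol_trans]
    have hpos : (0 : ℝ) < (2 * R) ^ (m + 2) := by positivity
    rw [ENNReal.div_le_iff (by simpa using hpos) ENNReal.ofReal_ne_top]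
    rw [ENNReal.tsum_eq_iSup_sum]
    apply iSup_le
    intro s
    rw [Finset.sum_const, nsmul_eq_mul]
    have hc := hcnt T hT R (s.map (Function.Embedding.subtype _)) hR.le (by
      intro t ht
      rw [Finset.mem_map] at ht
      obtain ⟨t', _, rfl⟩ := ht
      exact t'.2)
    rw [Finset.card_map] at hc
    calc (s.card : ℝ≥0∞) * volume K
        ≤ ENNReal.ofReal (((2 * R + C) ^ (m + 2) + C * (R + 1) ^ m) / A) * volume K := by
          gcongr
          rw [← ENNReal.ofReal_natCast]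
          apply ENNReal.ofReal_le_ofReal
          rw [le_div_iff₀ hA]
          exact hc
      _ = ENNReal.ofReal (((2 * R + C) ^ (m + 2) + C * (R + 1) ^ m) / (A * (2 * R) ^ (m + 2))) *
            volume K * ENNReal.ofReal ((2 * R) ^ (m + 2)) := by
          rw [mul_right_comm, ← ENNReal.ofReal_mul (by positivity)]
          congr 2
          field_simp
  have hlim : Tendsto (fun R : ℝ =>
      ENNReal.ofReal (((2 * R + C) ^ (m + 2) + C * (R + 1) ^ m) / (A * (2 * R) ^ (m + 2))) *
        volume K) atTop (𝓝 (ENNReal.ofReal (1 / A) * volume K)) :=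
    ENNReal.Tendsto.mul_const (ENNReal.tendsto_ofReal (lim_aux2 m A C hA)) (Or.inr hKt)
  calc _ ≤ limsup (fun R : ℝ =>
      ENNReal.ofReal (((2 * R + C) ^ (m + 2) + C * (R + 1) ^ m) / (A * (2 * R) ^ (m + 2))) *
        volume K) atTop := by
        refine limsup_le_limsup ?_
        filter_upwards [eventually_gt_atTop (0 : ℝ)] with R hR
        exact hbound R hR
    _ = ENNReal.ofReal (1 / A) * volume K := hlim.limsup_eq
    _ = volume K / volume P₀ := by
        rw [hvA, one_div, ENNReal.ofReal_inv_of_pos hA, mul_comm, div_eq_mul_inv]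

end Pool.Agent.E8helper47.TS
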